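import Pool.Agent.K.MP_95bcfc_an.C4
import Pool.Agent.K.MP_95bcfc_an.C0

set_option autoImplicit false

namespace Pool.Agent.Results.MP_95bcfc_an.Projective

open Pool.Agent.P.MP_95bcfc_an

/-- If a group `Γ` has Kirchberg's property and some subgroup of `Γ` maps onto a group `G` of
increasing homeomorphisms of the line that is locally free, or is one of Monod's groups `H(A)`,
`A ≠ ℤ`, or is the Lodha-Moore group, then the free group of rank two has Kirchberg's property. -/
theorem result (Γ : Type) [Group Γ] (G : Subgroup (ℝ ≃o ℝ))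
    (hG : LocallyFree G ∨ (∃ A : Subring ℝ, A ≠ ⊥ ∧ G = Monod A) ∨ G = LodhaMoore)
    (S : Subgroup Γ) (π : S →* G) (hπ : Function.Surjective π) (hK : KirchbergProperty Γ) :
    KirchbergProperty (FreeGroup (Fin 2)) := by
  have h : LocallyFree G := by
    rcases hG with h | ⟨A, hA, rfl⟩ | rfl
    exacts [h, Proj.monod_loc hA, Proj.lm_loc]
  exact (kirchberg_iff _).2 (Proj.main_loc h S π hπ ((kirchberg_iff _).1 hK))

end Pool.Agent.Results.MP_95bcfc_an.Projective
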