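import Pool.Agent.K.MP_95bcfc_an.C5
import Pool.Agent.K.MP_95bcfc_an.C0

set_option autoImplicit false

namespace Pool.Agent.Results.MP_95bcfc_an.SparseDehn

open Pool.Agent.P.MP_95bcfc_an

/-- If a group `Γ` has Kirchberg's property and some subgroup of `Γ` maps onto a countable group
`G` whose relations are caught by sparse sets of words, or by high powers, then the free group of
rank two has Kirchberg's property. -/
theorem result (Γ G : Type) [Group Γ] [Group G] [Countable G]
    (hG : SparseDehn G ∨ PowerRelations G)
    (S : Subgroup Γ) (π : S →* G) (hπ : Function.Surjective π) (hK : KirchbergProperty Γ) :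
    KirchbergProperty (FreeGroup (Fin 2)) :=
  (kirchberg_iff _).2 (EM.main_wide (Dehn.wide_of_sparse (hG.elim id Dehn.sparse_of_power)) S π hπ
    ((kirchberg_iff _).1 hK))

end Pool.Agent.Results.MP_95bcfc_an.SparseDehn
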