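import Pool.Agent.K.MP_95bcfc_an.C6
import Pool.Agent.K.MP_95bcfc_an.C0

set_option autoImplicit false

namespace Pool.Agent.Results.MP_95bcfc_an.Wreath

open Pool.Agent.P.MP_95bcfc_an

/-- If a group `Γ` has Kirchberg's property and some subgroup of `Γ` maps onto a restricted wreath
product `A ≀ G` with `A` infinite abelian and `G` countable and non-amenable, then the free group
of rank two has Kirchberg's property. -/
theorem result (Γ A G : Type) [Group Γ] [AddCommGroup A] [Infinite A] [Group G] [Countable G]
    (hG : ¬ Folner G) (S : Subgroup Γ) (π : S →* Wreath A G) (hπ : Function.Surjective π)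
    (hK : KirchbergProperty Γ) : KirchbergProperty (FreeGroup (Fin 2)) :=
  (kirchberg_iff _).2 (main_wreath hG S π hπ ((kirchberg_iff _).1 hK))

end Pool.Agent.Results.MP_95bcfc_an.Wreath
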